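import Mathlib

set_option autoImplicit false

open Polynomial

namespace Pool.Agent.Results.MP_d0ec72_al.PositiveWitt

variable (k : Type) [Field k]

lemma der_apply (D : Derivation k k[X] k[X]) (p : k[X]) : D p = derivative p * D X := by
  have h : D = mkDerivation k (D X) := by
    apply derivation_ext
    rw [mkDerivation_X]
  conv_lhs => rw [h]
  rw [mkDerivation_apply]
  rfl

lemma bracket_X (D E : Derivation k k[X] k[X]) :
    ⁅D, E⁆ X = derivative (E X) * D X - derivative (D X) * E X := by
  rw [Derivation.commutator_apply, der_apply k D (E X), der_apply k E (D X)]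

lemma dvd_key (m n : ℕ) (f g : k[X]) (hf : X ^ (m + 2) ∣ f) (hg : X ^ (n + 2) ∣ g) :
    X ^ (m + n + 3) ∣ derivative g * f - derivative f * g := by
  obtain ⟨u, rfl⟩ := hf
  obtain ⟨v, rfl⟩ := hg
  rw [derivative_mul, derivative_mul, derivative_X_pow, derivative_X_pow]
  simp only [show m + 2 - 1 = m + 1 by omega, show n + 2 - 1 = n + 1 by omega]
  refine ⟨C ((n + 2 : ℕ) : k) * v * u + X * derivative v * u - C ((m + 2 : ℕ) : k) * u * v
    - X * derivative u * v, ?_⟩
  ring

/-- The positive part of the Witt algebra: derivations `f d/dX` with `X ^ 2` dividing `f`. -/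
noncomputable def W : LieSubalgebra k (Derivation k k[X] k[X]) where
  carrier := {D | X ^ 2 ∣ D X}
  add_mem' := by
    intro a b ha hb
    change X ^ 2 ∣ (a + b) X
    rw [Derivation.add_apply]
    exact dvd_add ha hb
  zero_mem' := by
    change X ^ 2 ∣ (0 : Derivation k k[X] k[X]) X
    rw [Derivation.coe_zero]
    exact dvd_zero _
  smul_mem' := by
    intro c x hx
    change X ^ 2 ∣ (c • x) X
    rw [Derivation.smul_apply, smul_eq_C_mul]
    exact Dvd.dvd.mul_left hx _
  lie_mem' := by
    intro a b ha hb
    change X ^ 2 ∣ ⁅a, b⁆ X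
    rw [bracket_X]
    have := dvd_key k 0 0 (a X) (b X) ha hb
    exact (pow_dvd_pow X (by norm_num)).trans this

/-- the polynomial attached to an element -/
noncomputable def po (x : W k) : k[X] := (x : Derivation k k[X] k[X]) X

lemma po_inj (x y : W k) (h : po k x = po k y) : x = y := by
  apply Subtype.ext
  exact derivation_ext h

lemma po_dvd (x : W k) : X ^ 2 ∣ po k x := x.2

lemma po_lie (x y : W k) : po k ⁅x, y⁆ = derivative (po k y) * po k x - derivative (po k x) * po k y :=
  bracket_X k _ _

lemma po_zero : po k 0 = 0 := rfl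
lemma po_sub (x y : W k) : po k (x - y) = po k x - po k y := rfl
lemma po_add (x y : W k) : po k (x + y) = po k x + po k y := rfl
lemma po_smul (c : k) (x : W k) : po k (c • x) = C c * po k x := by
  rw [← smul_eq_C_mul]; rfl

lemma po_ne (x : W k) (h : x ≠ 0) : po k x ≠ 0 := by
  intro h0
  exact h (po_inj k x 0 h0)

lemma deg_ge (x : W k) (h : x ≠ 0) : 2 ≤ (po k x).natDegree := by
  obtain ⟨u, hu⟩ := po_dvd k x
  have hne := po_ne k x h
  have hu0 : u ≠ 0 := by
    rintro rfl; apply hne; rw [hu, mul_zero]
  rw [hu, natDegree_mul (pow_ne_zero _ X_ne_zero) hu0, natDegree_X_pow]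
  omega

noncomputable def mkW (p : k[X]) (h : X ^ 2 ∣ p) : W k := ⟨mkDerivation k p, by
  change X ^ 2 ∣ (mkDerivation k p) X
  rw [mkDerivation_X]; exact h⟩

lemma po_mkW (p : k[X]) (h : X ^ 2 ∣ p) : po k (mkW k p h) = p := mkDerivation_X k p

section char
variable [CharZero k]

lemma deg_lie (f g : k[X]) (m n : ℕ) (hf : f.natDegree = m + 1) (hg : g.natDegree = n + 1)
    (hmn : m ≠ n) : (derivative g * f - derivative f * g).natDegree = m + n + 1 := by
  have hf0 : f ≠ 0 := by rintro rfl; simp at hf
  have hg0 : g ≠ 0 := by rintro rfl; simp at hg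
  have df : (derivative f).natDegree ≤ m := by
    have := natDegree_derivative_le f; omega
  have dg : (derivative g).natDegree ≤ n := by
    have := natDegree_derivative_le g; omega
  have c1 : (derivative g * f).coeff (n + (m + 1)) = (derivative g).coeff n * f.coeff (m + 1) :=
    coeff_mul_add_eq_of_natDegree_le dg hf.le
  have c2 : (derivative f * g).coeff (m + (n + 1)) = (derivative f).coeff m * g.coeff (n + 1) :=
    coeff_mul_add_eq_of_natDegree_le df hg.le
  apply natDegree_eq_of_le_of_coeff_ne_zero
  · refine (natDegree_sub_le _ _).trans ?_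
    apply max_le
    · refine natDegree_mul_le.trans ?_
      omega
    · refine natDegree_mul_le.trans ?_
      omega
  · rw [coeff_sub]
    have e1 : m + n + 1 = n + (m + 1) := by ring
    have e2 : m + n + 1 = m + (n + 1) := by ring
    have c1' : (derivative g * f).coeff (m + n + 1) = (derivative g).coeff n * f.coeff (m + 1) := by
      rw [e1, c1]
    have c2' : (derivative f * g).coeff (m + n + 1) = (derivative f).coeff m * g.coeff (n + 1) := by
      rw [e2, c2]
    rw [c1', c2', coeff_derivative, coeff_derivative]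
    have hfc : f.coeff (m + 1) ≠ 0 := by
      rw [← hf]; exact leadingCoeff_ne_zero.mpr hf0
    have hgc : g.coeff (n + 1) ≠ 0 := by
      rw [← hg]; exact leadingCoeff_ne_zero.mpr hg0
    have hne : ((n : k) - m) ≠ 0 := by
      rw [sub_ne_zero]
      exact_mod_cast hmn.symm
    have : g.coeff (n + 1) * ((n : k) + 1) * f.coeff (m + 1) - f.coeff (m + 1) * ((m : k) + 1) * g.coeff (n + 1)
      = ((n : k) - m) * (f.coeff (m + 1) * g.coeff (n + 1)) := by ring
    rw [this]
    exact mul_ne_zero hne (mul_ne_zero hfc hgc)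

/-- the set of top degrees (shifted) of a subalgebra -/
def S (M : LieSubalgebra k (W k)) : Set ℕ := {m | ∃ x ∈ M, x ≠ 0 ∧ (po k x).natDegree = m + 1}

lemma S_pos (M : LieSubalgebra k (W k)) (m : ℕ) (hm : m ∈ S k M) : 1 ≤ m := by
  obtain ⟨x, _, hx0, hx⟩ := hm
  have := deg_ge k x hx0
  omega

lemma S_add (M : LieSubalgebra k (W k)) (m n : ℕ) (hm : m ∈ S k M) (hn : n ∈ S k M) (hmn : m ≠ n) :
    m + n ∈ S k M := by
  obtain ⟨x, hxM, hx0, hx⟩ := hm
  obtain ⟨y, hyM, hy0, hy⟩ := hn
  have hd := deg_lie k _ _ m n hx hy hmn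
  rw [← po_lie] at hd
  refine ⟨⁅x, y⁆, M.lie_mem hxM hyM, ?_, hd⟩
  intro h
  rw [h, po_zero, natDegree_zero] at hd
  omega

lemma S_mono (M N : LieSubalgebra k (W k)) (h : M ≤ N) : S k M ⊆ S k N := by
  rintro m ⟨x, hx, h0, hd⟩
  exact ⟨x, h hx, h0, hd⟩

lemma le_of_S (M N : LieSubalgebra k (W k)) (hMN : M ≤ N) (hS : S k N ⊆ S k M) : N ≤ M := by
  have key : ∀ d : ℕ, ∀ x ∈ N, (po k x).natDegree < d → x ∈ M := by
    intro d
    induction d with
    | zero => intro x _ h; omega
    | succ d ih =>
      intro x hx hd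
      by_cases hx0 : x = 0
      · rw [hx0]; exact M.zero_mem
      have hge := deg_ge k x hx0
      have hmem : (po k x).natDegree - 1 ∈ S k N := ⟨x, hx, hx0, by omega⟩
      obtain ⟨y, hyM, hy0, hyd⟩ := hS hmem
      have hdeg : (po k y).natDegree = (po k x).natDegree := by omega
      have hpx := po_ne k x hx0
      have hpy := po_ne k y hy0
      set c : k := (po k x).leadingCoeff / (po k y).leadingCoeff with hc
      have hc0 : c ≠ 0 := div_ne_zero (leadingCoeff_ne_zero.mpr hpx) (leadingCoeff_ne_zero.mpr hpy)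
      have hz : x - c • y ∈ M := by
        by_cases hz0 : x - c • y = 0
        · rw [hz0]; exact M.zero_mem
        apply ih
        · exact N.sub_mem hx (N.smul_mem c (hMN hyM))
        · have hlt : (po k x - C c * po k y).degree < (po k x).degree := by
            apply degree_sub_lt_left
            · rw [degree_C_mul hc0, degree_eq_natDegree hpx, degree_eq_natDegree hpy, hdeg]
            · exact hpx
            · rw [leadingCoeff_mul, leadingCoeff_C, hc,
                div_mul_cancel₀ _ (leadingCoeff_ne_zero.mpr hpy)]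
          have hne : po k (x - c • y) ≠ 0 := po_ne k _ hz0
          rw [po_sub, po_smul] at hne ⊢
          have := natDegree_lt_natDegree hne hlt
          omega
      have : x = (x - c • y) + c • y := by abel
      rw [this]
      exact M.add_mem hz (M.smul_mem c hyM)
  intro x hx
  exact key _ x hx (Nat.lt_succ_self _)

lemma chain_stab (f : ℕ →o LieSubalgebra k (W k)) : ∃ n, ∀ m, n ≤ m → f n = f m := by
  classical
  by_cases hex : ∃ i a, a ∈ S k (f i)
  · obtain ⟨i0, a, ha⟩ := hex
    have ha1 := S_pos k _ a ha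
    have hres : ∀ r : ℕ, ∃ i, ∀ j m, m ∈ S k (f j) → m % a = r → a < m → m ∈ S k (f i) := by
      intro r
      by_cases hr : ∃ m, (∃ j, m ∈ S k (f j)) ∧ m % a = r ∧ a < m
      · obtain ⟨⟨j, hj⟩, hmr, ham⟩ := Nat.find_spec hr
        set m0 := Nat.find hr with hm0
        refine ⟨max i0 j, ?_⟩
        have hm0' : m0 ∈ S k (f (max i0 j)) := S_mono k _ _ (f.monotone (le_max_right _ _)) hj
        have ha' : a ∈ S k (f (max i0 j)) := S_mono k _ _ (f.monotone (le_max_left _ _)) ha
        have hall : ∀ q : ℕ, m0 + q * a ∈ S k (f (max i0 j)) := by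
          intro q
          induction q with
          | zero => simpa using hm0'
          | succ q ih =>
            have := S_add k _ _ _ ih ha' (by nlinarith)
            have e : m0 + (q + 1) * a = m0 + q * a + a := by ring
            rw [e]; exact this
        intro j' m hm hmr' ham'
        have hle : m0 ≤ m := Nat.find_min' hr ⟨⟨j', hm⟩, hmr', ham'⟩
        have hmod : m0 ≡ m [MOD a] := by
          unfold Nat.ModEq; rw [hmr, hmr']
        have hdvd : a ∣ m - m0 := (Nat.modEq_iff_dvd' hle).mp hmod
        obtain ⟨q, hq⟩ := hdvd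
        have e : m = m0 + q * a := by rw [mul_comm q a, ← hq]; omega
        rw [e]; exact hall q
      · push Not at hr
        refine ⟨0, fun j m hm hmr ham => ?_⟩
        exact absurd ham (not_lt.mpr (hr m ⟨j, hm⟩ hmr))
    choose I hI using hres
    -- small elements
    have hsmall : ∀ m : ℕ, ∃ i, ∀ j, m ∈ S k (f j) → m ∈ S k (f i) := by
      intro m
      by_cases h : ∃ j, m ∈ S k (f j)
      · obtain ⟨j, hj⟩ := h
        exact ⟨j, fun _ _ => hj⟩
      · push Not at h
        exact ⟨0, fun j hj => absurd hj (h j)⟩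
    choose J hJ using hsmall
    let n : ℕ := (Finset.range (a + 1)).sup (fun r => max (I r) (J r))
    have hn : ∀ r, r < a + 1 → I r ≤ n ∧ J r ≤ n := by
      intro r hr
      have h := Finset.le_sup (f := fun r => max (I r) (J r)) (Finset.mem_range.mpr hr)
      exact ⟨(le_max_left _ _).trans h, (le_max_right _ _).trans h⟩
    refine ⟨n, fun m hm => ?_⟩
    apply le_antisymm (f.monotone hm)
    apply le_of_S k _ _ (f.monotone hm)
    intro s hs
    rcases lt_or_ge a s with h | h
    · have h1 := hI (s % a) m s hs rfl h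
      have h2 : s % a < a + 1 := (Nat.mod_lt s ha1).trans (Nat.lt_succ_self a)
      exact S_mono k _ _ (f.monotone (hn _ h2).1) h1
    · have h1 := hJ s m hs
      exact S_mono k _ _ (f.monotone (hn s (by omega)).2) h1
  · push Not at hex
    refine ⟨0, fun m hm => ?_⟩
    apply le_antisymm (f.monotone hm)
    apply le_of_S k _ _ (f.monotone hm)
    intro s hs
    exact absurd hs (hex m s)

end char

/-- the ideals of the filtration -/
noncomputable def J (n : ℕ) : LieIdeal k (W k) where
  carrier := {x | X ^ (n + 2) ∣ po k x}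
  add_mem' := by
    intro a b ha hb
    change X ^ (n + 2) ∣ po k (a + b)
    rw [po_add]; exact dvd_add ha hb
  zero_mem' := dvd_zero _
  smul_mem' := by
    intro c x hx
    change X ^ (n + 2) ∣ po k (c • x)
    rw [po_smul]; exact Dvd.dvd.mul_left hx _
  lie_mem := by
    intro x y hy
    change X ^ (n + 2) ∣ po k ⁅x, y⁆
    rw [po_lie]
    have := dvd_key k 0 n (po k x) (po k y) (po_dvd k x) hy
    exact (pow_dvd_pow X (by omega)).trans this

lemma lcs_le (n : ℕ) : LieModule.lowerCentralSeries k (W k) (W k) n ≤ J k n := by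
  induction n with
  | zero =>
    intro x _
    exact po_dvd k x
  | succ n ih =>
    rw [LieModule.lowerCentralSeries_succ, LieSubmodule.lie_le_iff]
    intro x _ y hy
    change X ^ (n + 1 + 2) ∣ po k ⁅x, y⁆
    rw [po_lie]
    have := dvd_key k 0 n (po k x) (po k y) (po_dvd k x) (ih hy)
    exact (pow_dvd_pow X (by omega)).trans this

lemma quot_nilp (n : ℕ) : LieRing.IsNilpotent ((W k) ⧸ (J k n)) := by
  have h : LieModule.IsNilpotent (W k) ((W k) ⧸ (J k n)) := by
    rw [LieModule.isNilpotent_quotient_iff k]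
    exact ⟨n, lcs_le k n⟩
  rw [LieModule.isNilpotent_iff k] at h
  change LieModule.IsNilpotent ((W k) ⧸ (J k n)) ((W k) ⧸ (J k n))
  rw [LieModule.isNilpotent_iff k]
  obtain ⟨m, hm⟩ := h
  refine ⟨m, ?_⟩
  rw [← LieSubmodule.toSubmodule_inj, ← coe_lowerCentralSeries_ideal_quot_eq, hm]
  rfl

lemma not_findim : ¬ FiniteDimensional k (W k) := by
  intro h
  -- independent family
  let v : ℕ → W k := fun n => mkW k (X ^ (n + 2)) (pow_dvd_pow X (by omega))
  let φ : W k →ₗ[k] k[X] :=
    { toFun := po k
      map_add' := po_add k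
      map_smul' := fun c x => by rw [po_smul, RingHom.id_apply, smul_eq_C_mul] }
  have hv : LinearIndependent k (fun n => φ (v n)) := by
    have e : (fun n => φ (v n)) = (fun n : ℕ => (X : k[X]) ^ (n + 2)) := by
      funext n
      exact po_mkW k (X ^ (n + 2)) (pow_dvd_pow X (by omega))
    rw [e]
    have hb := (Polynomial.basisMonomials k).linearIndependent
    have h2 : LinearIndependent k (fun n : ℕ => (Polynomial.basisMonomials k) (n + 2)) :=
      hb.comp (fun n : ℕ => n + 2) (fun a b h => by simpa using h)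
    convert h2 using 1
    funext n
    rw [Polynomial.coe_basisMonomials]
    exact (Polynomial.monomial_one_right_eq_X_pow (n + 2)).symm
  have hv2 : LinearIndependent k v := LinearIndependent.of_comp φ hv
  have := hv2.finite
  exact not_finite ℕ

/-- Over every field of characteristic zero there is an infinite-dimensional Lie algebra which is
Noetherian (every ascending chain of subalgebras stabilises) and residually nilpotent. -/
theorem result : ∀ (k : Type) [Field k] [CharZero k],
    ∃ (L : Type) (_ : LieRing L) (_ : LieAlgebra k L),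
      ¬ FiniteDimensional k L ∧
      (∀ f : ℕ →o LieSubalgebra k L, ∃ n, ∀ m, n ≤ m → f n = f m) ∧
      (∀ x : L, x ≠ 0 → ∃ I : LieIdeal k L, x ∉ I ∧ LieRing.IsNilpotent (L ⧸ I)) := by
  intro k _ _
  refine ⟨W k, inferInstance, inferInstance, not_findim k, chain_stab k, ?_⟩
  intro x hx
  refine ⟨J k (po k x).natDegree, ?_, quot_nilp k _⟩
  intro h
  have h1 : X ^ ((po k x).natDegree + 2) ∣ po k x := h
  have h2 := natDegree_le_of_dvd h1 (po_ne k x hx)
  rw [natDegree_X_pow] at h2
  omega

end Pool.Agent.Results.MP_d0ec72_al.PositiveWitt
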